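import Pool.Agent.H19.HL.Ker

/-!
# Level hierarchy: integrals of the determinant over boxes
-/

open Finset Filter Topology MeasureTheory

namespace Pool.Agent.H19.HL

/-- the determinant of the sine kernel at the points `u 0, …, u (r - 1), 0` -/
noncomputable def kd (r : ℕ) (u : Fin r → ℝ) : ℝ := (sk (Fin.snoc u 0 : Fin (r + 1) → ℝ)).det

theorem continuous_snoc0 (r : ℕ) :
    Continuous (fun u : Fin r → ℝ => (Fin.snoc u 0 : Fin (r + 1) → ℝ)) := by
  apply continuous_pi
  intro i
  refine Fin.lastCases ?_ (fun i => ?_) i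
  · simp only [Fin.snoc_last]
    exact continuous_const
  · simp only [Fin.snoc_castSucc]
    exact continuous_apply i

theorem kd_continuous (r : ℕ) : Continuous (kd r) := sk_det_continuous _ (continuous_snoc0 r)

theorem kd_nonneg (r : ℕ) (u : Fin r → ℝ) : 0 ≤ kd r u := sk_det_nonneg _

theorem kd_le (r : ℕ) (u : Fin r → ℝ) : kd r u ≤ 1 := sk_det_le _

theorem box_le (q R s : ℕ) :
    ∫ u in Set.Icc (fun _ : Fin q => -((s : ℝ) + 1)) (fun _ => (R : ℝ) - s), kd q u ≤
      ((R : ℝ) + 1) ^ q := by
  have hfin : volume (Set.Icc (fun _ : Fin q => -((s : ℝ) + 1)) (fun _ => (R : ℝ) - s)) ≠ ⊤ :=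
    isCompact_Icc.measure_lt_top.ne
  calc ∫ u in Set.Icc (fun _ : Fin q => -((s : ℝ) + 1)) (fun _ => (R : ℝ) - s), kd q u
      ≤ ∫ _ in Set.Icc (fun _ : Fin q => -((s : ℝ) + 1)) (fun _ => (R : ℝ) - s), (1 : ℝ) := by
        apply setIntegral_mono
        · exact (kd_continuous q).continuousOn.integrableOn_compact isCompact_Icc
        · exact integrableOn_const hfin
        · intro u
          exact kd_le q u
    _ = ((R : ℝ) + 1) ^ q := by
        rw [setIntegral_const, smul_eq_mul, mul_one, Measure.real, Real.volume_Icc_pi_toReal]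
        · have : ∀ i ∈ (Finset.univ : Finset (Fin q)),
              (R : ℝ) - s - -((s : ℝ) + 1) = R + 1 := fun _ _ => by ring
          rw [Finset.prod_congr rfl this, prod_const, Finset.card_univ, Fintype.card_fin]
        · intro i
          have h1 : (0 : ℝ) ≤ R := Nat.cast_nonneg _
          show -((s : ℝ) + 1) ≤ (R : ℝ) - s
          linarith

theorem cons_mem_Icc {r : ℕ} (c d : ℝ) (a b : Fin r → ℝ) (v : ℝ) (u : Fin r → ℝ) :
    (Fin.cons v u : Fin (r + 1) → ℝ) ∈ Set.Icc (Fin.cons c a : Fin (r + 1) → ℝ) (Fin.cons d b) ↔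
      v ∈ Set.Icc c d ∧ u ∈ Set.Icc a b := by
  simp only [Set.mem_Icc, Pi.le_def, Fin.forall_fin_succ, Fin.cons_zero, Fin.cons_succ]
  tauto

theorem fubini (r : ℕ) (c d : ℝ) (a b : Fin r → ℝ) (f : (Fin (r + 1) → ℝ) → ℝ)
    (hf : Continuous f) :
    ∫ u in Set.Icc (Fin.cons c a : Fin (r + 1) → ℝ) (Fin.cons d b), f u =
      ∫ v in Set.Icc c d, ∫ u in Set.Icc a b, f (Fin.cons v u) := by
  have hmp := (volume_preserving_piFinSuccAbove (fun _ : Fin (r + 1) => ℝ) 0).symm
  have h1 := hmp.setIntegral_preimage_emb (MeasurableEquiv.measurableEmbedding _) f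
    (Set.Icc (Fin.cons c a : Fin (r + 1) → ℝ) (Fin.cons d b))
  have h2 : (MeasurableEquiv.piFinSuccAbove (fun _ : Fin (r + 1) => ℝ) 0).symm ⁻¹'
      (Set.Icc (Fin.cons c a : Fin (r + 1) → ℝ) (Fin.cons d b)) =
      Set.Icc c d ×ˢ Set.Icc a b := by
    ext ⟨v, u⟩
    simp only [Set.mem_preimage, MeasurableEquiv.piFinSuccAbove_symm_apply, Fin.insertNthEquiv,
      Equiv.coe_fn_mk, Fin.insertNth_zero', Set.mem_prod]
    exact cons_mem_Icc c d a b v u
  rw [← h1, h2]
  have h3 : ∀ x : ℝ × (Fin r → ℝ),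
      f ((MeasurableEquiv.piFinSuccAbove (fun _ : Fin (r + 1) => ℝ) 0).symm x) =
      f (Fin.cons x.1 x.2) := by
    rintro ⟨v, u⟩
    simp only [MeasurableEquiv.piFinSuccAbove_symm_apply, Fin.insertNthEquiv,
      Equiv.coe_fn_mk, Fin.insertNth_zero']
  simp_rw [h3]
  rw [Measure.volume_eq_prod, setIntegral_prod]
  have hc : Continuous (fun x : ℝ × (Fin r → ℝ) => f (Fin.cons x.1 x.2)) := by
    apply hf.comp
    apply continuous_pi
    intro i
    refine Fin.cases ?_ (fun i => ?_) i
    · simp only [Fin.cons_zero]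
      exact continuous_fst
    · simp only [Fin.cons_succ]
      exact (continuous_apply i).comp continuous_snd
  exact hc.continuousOn.integrableOn_compact (isCompact_Icc.prod isCompact_Icc)

/-- the inner integral -/
noncomputable def GG (r : ℕ) (a b : Fin r → ℝ) (v : ℝ) : ℝ :=
  ∫ u in Set.Icc a b, kd (r + 1) (Fin.cons v u)

theorem cons_cont (r : ℕ) :
    Continuous (fun x : ℝ × (Fin r → ℝ) => (Fin.cons x.1 x.2 : Fin (r + 1) → ℝ)) := by
  apply continuous_pi
  intro i
  refine Fin.cases ?_ (fun i => ?_) i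
  · simp only [Fin.cons_zero]
    exact continuous_fst
  · simp only [Fin.cons_succ]
    exact (continuous_apply i).comp continuous_snd

theorem cons_cont_right (r : ℕ) (v : ℝ) :
    Continuous (fun u : Fin r → ℝ => (Fin.cons v u : Fin (r + 1) → ℝ)) := by
  apply continuous_pi
  intro i
  refine Fin.cases ?_ (fun i => ?_) i
  · simp only [Fin.cons_zero]
    exact continuous_const
  · simp only [Fin.cons_succ]
    exact continuous_apply i

theorem GG_tendsto (r : ℕ) (a b : Fin r → ℝ) :
    Tendsto (GG r a b) atTop (𝓝 (∫ u in Set.Icc a b, kd r u)) := by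
  unfold GG
  apply tendsto_integral_filter_of_dominated_convergence (fun _ => (1 : ℝ))
  · exact Eventually.of_forall (fun v => by
      apply Continuous.aestronglyMeasurable
      exact (kd_continuous (r + 1)).comp (cons_cont_right r v))
  · exact Eventually.of_forall (fun v => Eventually.of_forall (fun u => by
      rw [Real.norm_of_nonneg (kd_nonneg _ _)]
      exact kd_le _ _))
  · exact integrableOn_const isCompact_Icc.measure_lt_top.ne
  · refine Eventually.of_forall (fun u => ?_)
    have h1 : ∀ v : ℝ, kd (r + 1) (Fin.cons v u) =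
        (sk (Fin.cons v (Fin.snoc u 0 : Fin (r + 1) → ℝ) : Fin (r + 2) → ℝ)).det := by
      intro v
      unfold kd
      have : (Fin.snoc (Fin.cons v u : Fin (r + 1) → ℝ) 0 : Fin (r + 2) → ℝ) =
          Fin.cons v (Fin.snoc u 0 : Fin (r + 1) → ℝ) :=
        (Fin.cons_snoc_eq_snoc_cons v u (0 : ℝ)).symm
      rw [this]
    simp_rw [h1]
    exact sk_det_cons_tendsto _

theorem GG_nonneg (r : ℕ) (a b : Fin r → ℝ) (v : ℝ) : 0 ≤ GG r a b v := by
  unfold GG
  exact integral_nonneg (fun u => kd_nonneg _ _)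

theorem GG_le (r : ℕ) (a b : Fin r → ℝ) (v : ℝ) :
    GG r a b v ≤ (volume (Set.Icc a b)).toReal := by
  unfold GG
  calc ∫ u in Set.Icc a b, kd (r + 1) (Fin.cons v u) ≤ ∫ _ in Set.Icc a b, (1 : ℝ) := by
        apply setIntegral_mono
        · exact ((kd_continuous (r + 1)).comp
            (cons_cont_right r v)).continuousOn.integrableOn_compact isCompact_Icc
        · exact integrableOn_const isCompact_Icc.measure_lt_top.ne
        · intro u
          exact kd_le _ _
    _ = _ := by
        rw [setIntegral_const, smul_eq_mul, mul_one, Measure.real]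

theorem GG_continuous (r : ℕ) (a b : Fin r → ℝ) : Continuous (GG r a b) := by
  unfold GG
  apply continuous_parametric_integral_of_continuous
  · exact (kd_continuous (r + 1)).comp (cons_cont r)
  · exact isCompact_Icc

/-- means over long intervals -/
theorem cesaro (G : ℝ → ℝ) (hG : Continuous G) (C L c : ℝ) (hC : ∀ v, |G v| ≤ C)
    (hL : Tendsto G atTop (𝓝 L)) :
    Tendsto (fun R : ℝ => (∫ v in Set.Icc c (c + R), G v) / R) atTop (𝓝 L) := by
  have h1 : Tendsto (fun R : ℝ => ∫ s in (0 : ℝ)..1, G (R * s + c)) atTop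
      (𝓝 (∫ _ in (0 : ℝ)..1, L)) := by
    apply intervalIntegral.tendsto_integral_filter_of_dominated_convergence (fun _ => C)
    · exact Eventually.of_forall (fun R => by
        apply Continuous.aestronglyMeasurable
        exact hG.comp (by fun_prop))
    · exact Eventually.of_forall (fun R => Eventually.of_forall (fun s _ => hC _))
    · exact intervalIntegrable_const
    · refine Eventually.of_forall (fun s hs => ?_)
      rw [Set.uIoc_of_le zero_le_one] at hs
      apply hL.comp
      exact tendsto_atTop_add_const_right _ _ (tendsto_id.atTop_mul_const hs.1)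
  have h2 : ∫ _ in (0 : ℝ)..1, L = L := by simp
  rw [h2] at h1
  refine h1.congr' ?_
  filter_upwards [eventually_gt_atTop 0] with R hR
  rw [intervalIntegral.integral_comp_mul_add (fun v => G v) hR.ne' c, smul_eq_mul,
    integral_Icc_eq_integral_Ioc, ← intervalIntegral.integral_of_le (by linarith)]
  have e1 : R * 0 + c = c := by ring
  have e2 : R * 1 + c = c + R := by ring
  rw [e1, e2]
  field_simp

theorem box_tendsto (r : ℕ) (a b : Fin r → ℝ) (c : ℝ) :
    Tendsto (fun R : ℝ => (∫ u in Set.Icc (Fin.cons c a : Fin (r + 1) → ℝ)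
      (Fin.cons (c + R) b), kd (r + 1) u) / R) atTop (𝓝 (∫ u in Set.Icc a b, kd r u)) := by
  have h1 := cesaro (GG r a b) (GG_continuous r a b) ((volume (Set.Icc a b)).toReal) _ c
    (fun v => by rw [abs_of_nonneg (GG_nonneg r a b v)]; exact GG_le r a b v)
    (GG_tendsto r a b)
  refine h1.congr (fun R => ?_)
  rw [fubini r c (c + R) a b _ (kd_continuous (r + 1))]
  rfl

end Pool.Agent.H19.HL
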