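import Mathlib

/-!
# Level hierarchy: combinatorics of tuples and windows
-/

open Finset

namespace Pool.Agent.H19.HL

/-- the tuples of distinct indices in `F` whose differences from the last one are in the box -/
noncomputable def tup (F : Finset ℕ) (y : ℕ → ℝ) (r : ℕ) (a b : Fin r → ℝ) :
    Finset (Fin (r + 1) → ℕ) := by
  classical
  exact (Fintype.piFinset (fun _ : Fin (r + 1) => F)).filter (fun j => Function.Injective j ∧
    ∀ i : Fin r, y (j i.castSucc) - y (j (Fin.last r)) ∈ Set.Icc (a i) (b i))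

theorem mem_tup {F : Finset ℕ} {y : ℕ → ℝ} {r : ℕ} {a b : Fin r → ℝ} {j : Fin (r + 1) → ℕ} :
    j ∈ tup F y r a b ↔ (∀ i, j i ∈ F) ∧ Function.Injective j ∧
      ∀ i : Fin r, y (j i.castSucc) - y (j (Fin.last r)) ∈ Set.Icc (a i) (b i) := by
  classical
  unfold tup
  rw [mem_filter, Fintype.mem_piFinset]

/-- the indices whose cell is one of the `R` cells from `i` on -/
noncomputable def win (F : Finset ℕ) (y : ℕ → ℝ) (i : ℤ) (R : ℕ) : Finset ℕ :=
  F.filter (fun n => i ≤ ⌊y n⌋ ∧ ⌊y n⌋ < i + R)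

theorem mem_win {F : Finset ℕ} {y : ℕ → ℝ} {i : ℤ} {R : ℕ} {n : ℕ} :
    n ∈ win F y i R ↔ n ∈ F ∧ i ≤ ⌊y n⌋ ∧ ⌊y n⌋ < i + R := by
  unfold win
  rw [mem_filter]

/-- the sum of all windows -/
theorem sum_win (F : Finset ℕ) (y : ℕ → ℝ) (R : ℕ) (K : ℕ) (I : ℤ) (hK : R ≤ K)
    (hF : ∀ n ∈ F, 0 ≤ ⌊y n⌋ ∧ ⌊y n⌋ < I) :
    ∑ i ∈ Finset.Ico (-(K : ℤ)) (I + K), (win F y i R).card = R * F.card := by
  classical
  have h1 : ∀ i : ℤ, (win F y i R).card =
      ∑ n ∈ F, if i ≤ ⌊y n⌋ ∧ ⌊y n⌋ < i + R then 1 else 0 := by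
    intro i
    unfold win
    rw [card_filter]
  simp_rw [h1]
  rw [sum_comm]
  have h2 : ∀ n ∈ F, (∑ i ∈ Finset.Ico (-(K : ℤ)) (I + K),
      if i ≤ ⌊y n⌋ ∧ ⌊y n⌋ < i + R then 1 else 0) = R := by
    intro n hn
    obtain ⟨h3, h4⟩ := hF n hn
    rw [← card_filter]
    have h5 : (Finset.Ico (-(K : ℤ)) (I + K)).filter (fun i => i ≤ ⌊y n⌋ ∧ ⌊y n⌋ < i + R) =
        Finset.Ioc (⌊y n⌋ - R) ⌊y n⌋ := by
      ext i
      simp only [mem_filter, mem_Ico, mem_Ioc]
      constructor
      · rintro ⟨_, h7, h8⟩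
        exact ⟨by omega, h7⟩
      · rintro ⟨h7, h8⟩
        have : (R : ℤ) ≤ K := by exact_mod_cast hK
        exact ⟨⟨by omega, by omega⟩, h8, by omega⟩
    rw [h5, Int.card_Ioc]
    have : ⌊y n⌋ - (⌊y n⌋ - (R : ℤ)) = R := by ring
    rw [this, Int.toNat_natCast]
  rw [sum_congr rfl h2, sum_const, smul_eq_mul, mul_comm]

/-- the number of injective maps into a finite set -/
theorem card_inj (W : Finset ℕ) (k : ℕ) [DecidablePred (fun j : Fin k → ℕ => Function.Injective j)] :
    ((Fintype.piFinset (fun _ : Fin k => W)).filter (fun j => Function.Injective j)).card =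
      W.card.descFactorial k := by
  classical
  have h1 : Fintype.card (Fin k ↪ W) = W.card.descFactorial k := by
    rw [Fintype.card_embedding_eq, Fintype.card_coe, Fintype.card_fin]
  rw [← h1, ← Finset.card_univ]
  symm
  refine Finset.card_bij (fun (e : Fin k ↪ W) _ => fun i => ((e i : W) : ℕ)) ?_ ?_ ?_
  · intro e _
    rw [mem_filter, Fintype.mem_piFinset]
    refine ⟨fun i => (e i).2, ?_⟩
    intro i i' h
    exact e.injective (Subtype.ext h)
  · intro e _ e' _ h
    ext i
    exact congrFun h i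
  · intro j hj
    rw [mem_filter, Fintype.mem_piFinset] at hj
    refine ⟨⟨fun i => ⟨j i, hj.1 i⟩, ?_⟩, mem_univ _, rfl⟩
    intro i i' h
    exact hj.2 (congrArg Subtype.val h)

/-- the factorial moment of the windows is bounded by tuples in boxes -/
theorem sum_desc (F : Finset ℕ) (y : ℕ → ℝ) (R q : ℕ) (J : Finset ℤ) :
    ∑ i ∈ J, (win F y i R).card.descFactorial (q + 1) ≤
      ∑ s ∈ range R, (tup F y q (fun _ => -((s : ℝ) + 1)) (fun _ => (R : ℝ) - s)).card := by
  classical
  set A : ℤ → Finset (Fin (q + 1) → ℕ) := fun i =>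
    (Fintype.piFinset (fun _ : Fin (q + 1) => win F y i R)).filter
      (fun j => Function.Injective j) with hA
  have h1 : ∀ i, (win F y i R).card.descFactorial (q + 1) = (A i).card := fun i =>
    (card_inj (win F y i R) (q + 1)).symm
  have h2 : ∀ i, (A i).card ≤
      ∑ s ∈ range R, ((A i).filter (fun j => ⌊y (j (Fin.last q))⌋ = i + s)).card := by
    intro i
    rw [← Finset.card_biUnion]
    · apply card_le_card
      intro j hj
      rw [mem_biUnion]
      have hj' := hj
      rw [hA] at hj'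
      simp only [mem_filter, Fintype.mem_piFinset, mem_win] at hj'
      obtain ⟨-, h3, h4⟩ := hj'.1 (Fin.last q)
      refine ⟨(⌊y (j (Fin.last q))⌋ - i).toNat, ?_, ?_⟩
      · rw [mem_range]
        omega
      · rw [mem_filter]
        refine ⟨hj, ?_⟩
        omega
    · intro s _ s' _ hss
      rw [Function.onFun, Finset.disjoint_left]
      intro j hj hj'
      rw [mem_filter] at hj hj'
      apply hss
      have := hj.2.symm.trans hj'.2
      have h5 : (s : ℤ) = s' := by linarith
      exact_mod_cast h5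
  calc ∑ i ∈ J, (win F y i R).card.descFactorial (q + 1)
      ≤ ∑ i ∈ J, ∑ s ∈ range R, ((A i).filter (fun j => ⌊y (j (Fin.last q))⌋ = i + s)).card :=
        sum_le_sum (fun i _ => (h1 i).le.trans (h2 i))
    _ = ∑ s ∈ range R, ∑ i ∈ J, ((A i).filter (fun j => ⌊y (j (Fin.last q))⌋ = i + s)).card :=
        sum_comm
    _ ≤ _ := by
        apply sum_le_sum
        intro s hs
        rw [mem_range] at hs
        rw [← Finset.card_biUnion]
        · apply card_le_card
          intro j hj
          rw [mem_biUnion] at hj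
          obtain ⟨i, -, hj⟩ := hj
          rw [mem_filter] at hj
          obtain ⟨hj, hl⟩ := hj
          rw [hA] at hj
          simp only [mem_filter, Fintype.mem_piFinset, mem_win] at hj
          rw [mem_tup]
          refine ⟨fun k => (hj.1 k).1, hj.2, fun k => ?_⟩
          obtain ⟨-, h3, h4⟩ := hj.1 k.castSucc
          have h5 : (i : ℝ) ≤ y (j k.castSucc) := by
            have := Int.le_floor.mp h3
            exact this
          have h6 : y (j k.castSucc) < i + R := by
            have := Int.floor_lt.mp h4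
            push_cast at this
            exact this
          have h7 : (i : ℝ) + s ≤ y (j (Fin.last q)) := by
            have := Int.le_floor.mp hl.ge
            push_cast at this
            exact this
          have h8 : y (j (Fin.last q)) < i + s + 1 := by
            have := Int.lt_floor_add_one (y (j (Fin.last q)))
            rw [hl] at this
            push_cast at this
            exact this
          constructor <;> linarith
        · intro i _ i' _ hii
          rw [Function.onFun, Finset.disjoint_left]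
          intro j hj hj'
          rw [mem_filter] at hj hj'
          apply hii
          have := hj.2.symm.trans hj'.2
          linarith

/-- one more index, far to the right -/
noncomputable def nj (F : Finset ℕ) (y : ℕ → ℝ) (c R : ℝ) (l : ℕ) : Finset ℕ := by
  classical
  exact F.filter (fun m => y m - y l ∈ Set.Icc c (c + R))

theorem mem_nj {F : Finset ℕ} {y : ℕ → ℝ} {c R : ℝ} {l m : ℕ} :
    m ∈ nj F y c R l ↔ m ∈ F ∧ y m - y l ∈ Set.Icc c (c + R) := by
  classical
  unfold nj
  rw [mem_filter]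

/-- the tuples with one more index -/
theorem card_cons (F : Finset ℕ) (y : ℕ → ℝ) (r : ℕ) (a b : Fin r → ℝ) (c R : ℝ) (hc : 0 < c)
    (hb : ∀ i, b i < c) :
    (tup F y (r + 1) (Fin.cons c a) (Fin.cons (c + R) b)).card =
      ∑ j ∈ tup F y r a b, (nj F y c R (j (Fin.last r))).card := by
  classical
  rw [← Finset.card_sigma]
  refine Finset.card_bij' (fun j _ => (⟨Fin.tail j, j 0⟩ : Σ _ : Fin (r + 1) → ℕ, ℕ))
    (fun s _ => (Fin.cons s.2 s.1 : Fin (r + 2) → ℕ)) ?_ ?_ ?_ ?_
  · intro j hj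
    rw [mem_tup] at hj
    obtain ⟨h1, h2, h3⟩ := hj
    rw [mem_sigma, mem_tup, mem_nj]
    have e1 : Fin.tail j (Fin.last r) = j (Fin.last (r + 1)) := by
      rw [Fin.tail, Fin.succ_last]
    refine ⟨⟨fun i => h1 _, fun i i' h => ?_, fun i => ?_⟩, h1 0, ?_⟩
    · exact Fin.succ_injective _ (h2 h)
    · have h4 := h3 i.succ
      rw [Fin.cons_succ, Fin.cons_succ] at h4
      show y (Fin.tail j i.castSucc) - y (Fin.tail j (Fin.last r)) ∈ Set.Icc (a i) (b i)
      rw [e1]
      have e2 : Fin.tail j i.castSucc = j i.succ.castSucc := by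
        rw [Fin.tail, Fin.succ_castSucc]
      rw [e2]
      exact h4
    · have h4 := h3 0
      rw [Fin.cons_zero, Fin.cons_zero] at h4
      simp only [e1]
      exact h4
  · rintro ⟨j, m⟩ hj
    rw [mem_sigma, mem_tup, mem_nj] at hj
    obtain ⟨⟨h1, h2, h3⟩, h4, h5⟩ := hj
    simp only at h1 h2 h3 h4 h5
    have e1 : (Fin.cons m j : Fin (r + 2) → ℕ) (Fin.last (r + 1)) = j (Fin.last r) := by
      rw [← Fin.succ_last, Fin.cons_succ]
    have hne : ∀ i, m ≠ j i := by
      intro i hmi
      refine Fin.lastCases ?_ (fun i => ?_) i hmi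
      · intro h
        rw [h] at h5
        rw [sub_self] at h5
        linarith [h5.1]
      · intro h
        have h6 := (h3 i).2
        rw [h] at h5
        linarith [h5.1, hb i]
    rw [mem_tup]
    refine ⟨fun i => ?_, ?_, fun i => ?_⟩
    · refine Fin.cases ?_ (fun i => ?_) i
      · exact h4
      · exact h1 i
    · rw [Fin.cons_injective_iff]
      refine ⟨?_, h2⟩
      rintro ⟨i, hi⟩
      exact hne i hi.symm
    · rw [e1]
      refine Fin.cases ?_ (fun i => ?_) i
      · rw [Fin.castSucc_zero, Fin.cons_zero, Fin.cons_zero, Fin.cons_zero]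
        exact h5
      · rw [Fin.cons_succ, Fin.cons_succ, ← Fin.succ_castSucc, Fin.cons_succ]
        exact h3 i
  · intro j _
    simp only
    exact Fin.cons_self_tail j
  · rintro ⟨j, m⟩ _
    simp only [Fin.tail_cons, Fin.cons_zero]

/-- the tuples whose last index is in a given cell -/
theorem card_cell (F : Finset ℕ) (y : ℕ → ℝ) (r : ℕ) (a b : Fin r → ℝ) (b0 : ℕ)
    (ha : ∀ i, -(b0 : ℝ) ≤ a i) (hb : ∀ i, b i ≤ b0) (i : ℤ) :
    ((tup F y r a b).filter (fun j => ⌊y (j (Fin.last r))⌋ = i)).card ≤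
      (win F y (i - b0) (2 * b0 + 1)).card ^ (r + 1) := by
  classical
  have h0 : (Fintype.piFinset (fun _ : Fin (r + 1) => win F y (i - b0) (2 * b0 + 1))).card =
      (win F y (i - b0) (2 * b0 + 1)).card ^ (r + 1) := by
    rw [Fintype.card_piFinset, prod_const, Finset.card_univ, Fintype.card_fin]
  rw [← h0]
  apply card_le_card
  intro j hj
  rw [mem_filter, mem_tup] at hj
  obtain ⟨⟨h1, -, h3⟩, h4⟩ := hj
  rw [Fintype.mem_piFinset]
  intro k
  have h5 : (i : ℝ) ≤ y (j (Fin.last r)) := Int.le_floor.mp h4.ge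
  have h6 : y (j (Fin.last r)) < i + 1 := by
    have := Int.lt_floor_add_one (y (j (Fin.last r)))
    rw [h4] at this
    exact this
  have hb0 : (0 : ℝ) ≤ b0 := Nat.cast_nonneg _
  have key : (i : ℝ) - b0 ≤ y (j k) ∧ y (j k) < i + b0 + 1 := by
    refine Fin.lastCases ?_ (fun k => ?_) k
    · exact ⟨by linarith, by linarith⟩
    · have h7 := h3 k
      have h8 := ha k
      have h9 := hb k
      exact ⟨by linarith [h7.1], by linarith [h7.2]⟩
  rw [mem_win]
  refine ⟨h1 k, ?_, ?_⟩
  · apply Int.le_floor.mpr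
    push_cast
    exact key.1
  · apply Int.floor_lt.mpr
    push_cast
    linarith [key.2]

/-- comparison of the new index with windows -/
theorem nj_le (F : Finset ℕ) (y : ℕ → ℝ) (c R : ℕ) (l : ℕ) :
    (nj F y c R l).card ≤ (win F y (⌊y l⌋ + c) (R + 1)).card := by
  apply card_le_card
  intro m hm
  rw [mem_nj] at hm
  obtain ⟨h1, h2, h3⟩ := hm
  have h5 : (⌊y l⌋ : ℝ) ≤ y l := Int.floor_le _
  have h6 : y l < ⌊y l⌋ + 1 := Int.lt_floor_add_one _
  rw [mem_win]
  refine ⟨h1, ?_, ?_⟩
  · apply Int.le_floor.mpr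
    push_cast
    linarith
  · apply Int.floor_lt.mpr
    push_cast
    linarith

theorem le_nj (F : Finset ℕ) (y : ℕ → ℝ) (c R : ℕ) (l : ℕ) :
    (win F y (⌊y l⌋ + c + 1) (R - 1)).card ≤ (nj F y c R l).card := by
  apply card_le_card
  intro m hm
  rw [mem_win] at hm
  obtain ⟨h1, h2, h3⟩ := hm
  have h5 : (⌊y l⌋ : ℝ) ≤ y l := Int.floor_le _
  have h6 : y l < ⌊y l⌋ + 1 := Int.lt_floor_add_one _
  have h7 : ((⌊y l⌋ + c + 1 : ℤ) : ℝ) ≤ y m := Int.le_floor.mp h2
  have h8 : y m < ((⌊y l⌋ + c + 1 + (R - 1 : ℕ) : ℤ) : ℝ) := Int.floor_lt.mp h3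
  push_cast at h7 h8
  rw [mem_nj]
  refine ⟨h1, by linarith, ?_⟩
  rcases Nat.eq_zero_or_pos R with hR | hR
  · subst hR
    simp at h8
    linarith
  · have h9 : (((R - 1 : ℕ) : ℤ) : ℝ) = (R : ℝ) - 1 := by
      rw [Int.cast_natCast, Nat.cast_sub hR, Nat.cast_one]
    rw [Nat.cast_sub hR] at h8
    push_cast at h8
    linarith

end Pool.Agent.H19.HL
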