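import Mathlib

/-!
# Level hierarchy: elementary inequalities
-/

open Finset

namespace Pool.Agent.H19.HL

theorem right_ineq (R t : ℝ) (hR : 0 ≤ R) (ht : 0 ≤ t) (p : ℕ) (hp : 2 ≤ p) :
    R ^ p + p * R ^ (p - 1) * t + t ^ p ≤ (R + t) ^ p := by
  induction p, hp using Nat.le_induction with
  | base => norm_num; nlinarith
  | succ p hp ih =>
    have h1 : (R + t) * (R ^ p + p * R ^ (p - 1) * t + t ^ p) ≤ (R + t) ^ (p + 1) := by
      rw [pow_succ (R + t) p, mul_comm ((R + t) ^ p)]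
      exact mul_le_mul_of_nonneg_left ih (by linarith)
    refine le_trans ?_ h1
    have h2 : R ^ p = R ^ (p - 1) * R := by
      rw [← pow_succ]; congr 1; omega
    have h3 : (0 : ℝ) ≤ R ^ (p - 1) := pow_nonneg hR _
    have h4 : (0 : ℝ) ≤ t ^ p := pow_nonneg ht _
    have h5 : (0 : ℝ) ≤ p := Nat.cast_nonneg _
    have h6 : 0 ≤ R * t ^ p := mul_nonneg hR h4
    have h7 : 0 ≤ (p : ℝ) * R ^ (p - 1) * t * t := by positivity
    rw [Nat.add_sub_cancel]
    push_cast
    rw [pow_succ R p, pow_succ t p, h2]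
    nlinarith

theorem left_ineq (R s : ℝ) (hs : 0 ≤ s) (hsR : s ≤ R) (p : ℕ) (hp : 2 ≤ p) :
    R ^ p - p * R ^ (p - 1) * s + s ^ p ≤ (R - s) ^ p := by
  induction p, hp using Nat.le_induction with
  | base => norm_num; nlinarith
  | succ p hp ih =>
    have hR : 0 ≤ R := hs.trans hsR
    have h1 : (R - s) * (R ^ p - p * R ^ (p - 1) * s + s ^ p) ≤ (R - s) ^ (p + 1) := by
      rw [pow_succ (R - s) p, mul_comm ((R - s) ^ p)]
      exact mul_le_mul_of_nonneg_left ih (by linarith)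
    refine le_trans ?_ h1
    have h2 : R ^ p = R ^ (p - 1) * R := by
      rw [← pow_succ]; congr 1; omega
    have h2' : s ^ p = s ^ (p - 1) * s := by
      rw [← pow_succ]; congr 1; omega
    have h3 : s ^ (p - 1) ≤ R ^ (p - 1) := pow_le_pow_left₀ hs hsR _
    have h3' : (0 : ℝ) ≤ s ^ (p - 1) := pow_nonneg hs _
    have h5 : (1 : ℝ) ≤ p := by exact_mod_cast (by omega : 1 ≤ p)
    have h8 : s ^ (p - 1) ≤ p * R ^ (p - 1) := by nlinarith
    have h9 : 0 ≤ s * s * (p * R ^ (p - 1) - s ^ (p - 1)) :=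
      mul_nonneg (mul_nonneg hs hs) (by linarith)
    have h10 : 0 ≤ s ^ (p - 1) * s * (R - s) :=
      mul_nonneg (mul_nonneg h3' hs) (by linarith)
    rw [Nat.add_sub_cancel]
    push_cast
    rw [pow_succ R p, pow_succ s p, h2, h2']
    nlinarith

/-- convexity with a remainder -/
theorem convex_ineq (X R : ℝ) (hX : 0 ≤ X) (hR : 0 ≤ R) (p : ℕ) (hp : 2 ≤ p) :
    |X - R| ^ p ≤ X ^ p - R ^ p - p * R ^ (p - 1) * (X - R) := by
  rcases le_total R X with h | h
  · have h1 := right_ineq R (X - R) hR (by linarith) p hp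
    rw [abs_of_nonneg (by linarith)]
    have : R + (X - R) = X := by ring
    rw [this] at h1
    linarith
  · have h1 := left_ineq R (R - X) (by linarith) (by linarith) p hp
    rw [abs_of_nonpos (by linarith), neg_sub]
    have : R - (R - X) = X := by ring
    rw [this] at h1
    nlinarith

theorem desc_ineq (X p : ℕ) : X ^ (p + 1) ≤ X.descFactorial (p + 1) + (p + 1) ^ 2 * X ^ p := by
  induction p with
  | zero => simp
  | succ p ih =>
    rcases lt_or_ge X (p + 1) with h | h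
    · have h1 : X ^ (p + 1 + 1) = X * X ^ (p + 1) := by rw [pow_succ, mul_comm]
      rw [h1]
      have h2 : X ≤ (p + 1 + 1) ^ 2 := by nlinarith
      have h3 : X * X ^ (p + 1) ≤ (p + 1 + 1) ^ 2 * X ^ (p + 1) := Nat.mul_le_mul_right _ h2
      omega
    · have h1 : X.descFactorial (p + 1 + 1) = (X - (p + 1)) * X.descFactorial (p + 1) :=
        Nat.descFactorial_succ X (p + 1)
      have h2 : X.descFactorial (p + 1) ≤ X ^ (p + 1) := Nat.descFactorial_le_pow _ _
      obtain ⟨z, hz⟩ := Nat.exists_eq_add_of_le h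
      have h3 : X - (p + 1) = z := by omega
      rw [h1, h3]
      -- X = p + 1 + z
      have h4 : X * X.descFactorial (p + 1) = (p + 1) * X.descFactorial (p + 1) +
          z * X.descFactorial (p + 1) := by
        conv_lhs => rw [hz]
        rw [hz]
        ring
      have h5 : X ^ (p + 1 + 1) ≤ X * X.descFactorial (p + 1) + (p + 1) ^ 2 * X ^ (p + 1) := by
        calc X ^ (p + 1 + 1) = X * X ^ (p + 1) := by rw [pow_succ, mul_comm]
          _ ≤ X * (X.descFactorial (p + 1) + (p + 1) ^ 2 * X ^ p) := Nat.mul_le_mul_left _ ih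
          _ = _ := by ring
      have h6 : (p + 1) * X.descFactorial (p + 1) ≤ (p + 1) * X ^ (p + 1) :=
        Nat.mul_le_mul_left _ h2
      calc X ^ (p + 1 + 1) ≤ X * X.descFactorial (p + 1) + (p + 1) ^ 2 * X ^ (p + 1) := h5
        _ = (p + 1) * X.descFactorial (p + 1) + z * X.descFactorial (p + 1) +
            (p + 1) ^ 2 * X ^ (p + 1) := by rw [h4]
        _ ≤ (p + 1) * X ^ (p + 1) + z * X.descFactorial (p + 1) +
            (p + 1) ^ 2 * X ^ (p + 1) := by omega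
        _ = z * X.descFactorial (p + 1) + ((p + 1) + (p + 1) ^ 2) * X ^ (p + 1) := by ring
        _ ≤ z * X.descFactorial (p + 1) + (p + 1 + 1) ^ 2 * X ^ (p + 1) := by
            apply Nat.add_le_add_left
            apply Nat.mul_le_mul_right
            nlinarith

/-- powers are at most `1 / (1 - ε)` times falling factorials, up to a constant -/
theorem pow_le_desc (p : ℕ) (hp : 1 ≤ p) (ε : ℝ) (hε : 0 < ε) :
    ∃ K : ℝ, 0 ≤ K ∧ ∀ X : ℕ, (1 - ε) * (X : ℝ) ^ p ≤ X.descFactorial p + K := by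
  obtain ⟨q, rfl⟩ : ∃ q, p = q + 1 := ⟨p - 1, by omega⟩
  refine ⟨((q : ℝ) + 1) ^ 2 * (((q : ℝ) + 1) ^ 2 / ε) ^ q, by positivity, fun X => ?_⟩
  have h1 : (X : ℝ) ^ (q + 1) ≤ X.descFactorial (q + 1) + ((q : ℝ) + 1) ^ 2 * (X : ℝ) ^ q := by
    exact_mod_cast desc_ineq X q
  have hX : (0 : ℝ) ≤ X := Nat.cast_nonneg _
  rcases le_total (((q : ℝ) + 1) ^ 2 / ε) (X : ℝ) with h | h
  · rw [div_le_iff₀ hε] at h
    have h2 : ((q : ℝ) + 1) ^ 2 * (X : ℝ) ^ q ≤ ε * (X : ℝ) ^ (q + 1) := by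
      have h3 : (0 : ℝ) ≤ (X : ℝ) ^ q := by positivity
      calc ((q : ℝ) + 1) ^ 2 * (X : ℝ) ^ q ≤ (X * ε) * (X : ℝ) ^ q :=
            mul_le_mul_of_nonneg_right h h3
        _ = ε * (X : ℝ) ^ (q + 1) := by rw [pow_succ]; ring
    have h4 : (0 : ℝ) ≤ ((q : ℝ) + 1) ^ 2 * (((q : ℝ) + 1) ^ 2 / ε) ^ q := by positivity
    linarith
  · have h2 : (X : ℝ) ^ q ≤ (((q : ℝ) + 1) ^ 2 / ε) ^ q := pow_le_pow_left₀ hX h _
    have h3 : ((q : ℝ) + 1) ^ 2 * (X : ℝ) ^ q ≤
        ((q : ℝ) + 1) ^ 2 * (((q : ℝ) + 1) ^ 2 / ε) ^ q :=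
      mul_le_mul_of_nonneg_left h2 (by positivity)
    have h4 : (0 : ℝ) ≤ ε * (X : ℝ) ^ (q + 1) := by positivity
    linarith

/-- Young's inequality in a crude form -/
theorem young (W e η : ℝ) (hW : 0 ≤ W) (he : 0 ≤ e) (hη : 0 < η) (q : ℕ) :
    W ^ q * e ≤ η * W ^ (q + 1) + e ^ (q + 1) / η ^ q := by
  rcases le_total e (η * W) with h | h
  · have h1 : W ^ q * e ≤ W ^ q * (η * W) := mul_le_mul_of_nonneg_left h (by positivity)
    have h2 : W ^ q * (η * W) = η * W ^ (q + 1) := by ring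
    have h3 : 0 ≤ e ^ (q + 1) / η ^ q := by positivity
    linarith
  · have h1 : W ≤ e / η := by rw [le_div_iff₀ hη]; linarith
    have h2 : W ^ q ≤ (e / η) ^ q := pow_le_pow_left₀ hW h1 _
    have h3 : W ^ q * e ≤ (e / η) ^ q * e := mul_le_mul_of_nonneg_right h2 he
    have h4 : (e / η) ^ q * e = e ^ (q + 1) / η ^ q := by
      rw [div_pow, pow_succ]; ring
    have h5 : 0 ≤ η * W ^ (q + 1) := by positivity
    linarith

theorem three_pow (a b : ℝ) (ha : 0 ≤ a) (hb : 0 ≤ b) (p : ℕ) :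
    (a + b + 1) ^ p ≤ 3 ^ p * (a ^ p + b ^ p + 1) := by
  have h1 : a + b + 1 ≤ 3 * max (max a b) 1 := by
    have := le_max_left (max a b) 1
    have := le_max_right (max a b) 1
    have := le_max_left a b
    have := le_max_right a b
    linarith
  have h2 : (a + b + 1) ^ p ≤ (3 * max (max a b) 1) ^ p :=
    pow_le_pow_left₀ (by positivity) h1 _
  rw [mul_pow] at h2
  refine h2.trans (mul_le_mul_of_nonneg_left ?_ (by positivity))
  have ha' : 0 ≤ a ^ p := by positivity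
  have hb' : 0 ≤ b ^ p := by positivity
  rcases max_cases (max a b) 1 with ⟨h, _⟩ | ⟨h, _⟩
  · rw [h]
    rcases max_cases a b with ⟨h', _⟩ | ⟨h', _⟩
    · rw [h']; linarith
    · rw [h']; linarith
  · rw [h, one_pow]; linarith

end Pool.Agent.H19.HL
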