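import Mathlib

/-!
# Level hierarchy: the sine kernel determinant
-/

open Finset Filter Topology MeasureTheory

namespace Pool.Agent.H19.HL

/-- the matrix with entries `sin π (w i - w j) / (π (w i - w j))`, and `1` for `w i = w j` -/
noncomputable def sk {n : ℕ} (w : Fin n → ℝ) : Matrix (Fin n) (Fin n) ℝ :=
  Matrix.of fun i j => Real.sinc (Real.pi * (w i - w j))

theorem sinc_eq_integral (x : ℝ) :
    Real.sinc (Real.pi * x) = ∫ t in (-(1 / 2) : ℝ)..(1 / 2), Real.cos (2 * Real.pi * x * t) := by
  rcases eq_or_ne x 0 with hx | hx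
  · subst hx
    simp
    norm_num
  · have h1 : (2 * Real.pi * x) ≠ 0 := by
      have := Real.pi_pos
      positivity
    have h2 : Real.pi * x ≠ 0 := by
      have := Real.pi_pos
      positivity
    rw [intervalIntegral.integral_comp_mul_left (fun t => Real.cos t) h1, integral_cos,
      Real.sinc_of_ne_zero h2, smul_eq_mul]
    have e1 : 2 * Real.pi * x * (1 / 2) = Real.pi * x := by ring
    have e2 : 2 * Real.pi * x * (-(1 / 2)) = -(Real.pi * x) := by ring
    rw [e1, e2, Real.sin_neg]
    field_simp
    ring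

theorem quad_nonneg {n : ℕ} (w c : Fin n → ℝ) :
    0 ≤ ∑ i, ∑ j, c i * c j * Real.sinc (Real.pi * (w i - w j)) := by
  have h1 : ∀ i j, c i * c j * Real.sinc (Real.pi * (w i - w j)) =
      ∫ t in (-(1 / 2) : ℝ)..(1 / 2), c i * c j * Real.cos (2 * Real.pi * (w i - w j) * t) := by
    intro i j
    rw [sinc_eq_integral, intervalIntegral.integral_const_mul]
  simp_rw [h1]
  have hint : ∀ i j, IntervalIntegrable
      (fun t => c i * c j * Real.cos (2 * Real.pi * (w i - w j) * t)) volume
      (-(1 / 2) : ℝ) (1 / 2) := by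
    intro i j
    apply Continuous.intervalIntegrable
    fun_prop
  have h2 : ∀ i, ∑ j, ∫ t in (-(1 / 2) : ℝ)..(1 / 2),
      c i * c j * Real.cos (2 * Real.pi * (w i - w j) * t) =
      ∫ t in (-(1 / 2) : ℝ)..(1 / 2),
        ∑ j, c i * c j * Real.cos (2 * Real.pi * (w i - w j) * t) := by
    intro i
    rw [intervalIntegral.integral_finsetSum]
    intro j _
    exact hint i j
  simp_rw [h2]
  rw [← intervalIntegral.integral_finsetSum]
  swap
  · intro i _
    apply Continuous.intervalIntegrable
    fun_prop
  apply intervalIntegral.integral_nonneg (by norm_num)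
  intro t _
  have h3 : ∑ i, ∑ j, c i * c j * Real.cos (2 * Real.pi * (w i - w j) * t) =
      (∑ i, c i * Real.cos (2 * Real.pi * w i * t)) ^ 2 +
      (∑ i, c i * Real.sin (2 * Real.pi * w i * t)) ^ 2 := by
    rw [sq, sq, Finset.sum_mul_sum, Finset.sum_mul_sum, ← Finset.sum_add_distrib]
    apply Finset.sum_congr rfl
    intro i _
    rw [← Finset.sum_add_distrib]
    apply Finset.sum_congr rfl
    intro j _
    have e : 2 * Real.pi * (w i - w j) * t = 2 * Real.pi * w i * t - 2 * Real.pi * w j * t := by
      ring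
    rw [e, Real.cos_sub]
    ring
  rw [h3]
  positivity

theorem sk_posSemidef {n : ℕ} (w : Fin n → ℝ) : (sk w).PosSemidef := by
  apply Matrix.PosSemidef.of_dotProduct_mulVec_nonneg
  · ext i j
    simp only [sk, Matrix.conjTranspose_apply, Matrix.of_apply, star_trivial]
    have : Real.pi * (w j - w i) = -(Real.pi * (w i - w j)) := by ring
    rw [this, Real.sinc_neg]
  · intro x
    have := quad_nonneg w x
    simp only [star_trivial, dotProduct, Matrix.mulVec, sk, Matrix.of_apply]
    refine this.trans (le_of_eq ?_)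
    apply Finset.sum_congr rfl
    intro i _
    rw [Finset.mul_sum]
    apply Finset.sum_congr rfl
    intro j _
    ring

theorem sk_det_nonneg {n : ℕ} (w : Fin n → ℝ) : 0 ≤ (sk w).det := (sk_posSemidef w).det_nonneg

theorem sk_det_le {n : ℕ} (w : Fin n → ℝ) : (sk w).det ≤ 1 := by
  have hp := sk_posSemidef w
  have hH := hp.isHermitian
  have h1 : (sk w).det = ∏ i, hH.eigenvalues i := by
    have := hH.det_eq_prod_eigenvalues
    simpa using this
  have h2 : (sk w).trace = ∑ i, hH.eigenvalues i := by
    have := hH.trace_eq_sum_eigenvalues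
    simpa using this
  have h3 : (sk w).trace = n := by
    simp [sk, Matrix.trace, Matrix.diag]
  rw [h1]
  calc ∏ i, hH.eigenvalues i ≤ ∏ i, Real.exp (hH.eigenvalues i - 1) := by
        apply Finset.prod_le_prod
        · intro i _
          exact hp.eigenvalues_nonneg i
        · intro i _
          have := Real.add_one_le_exp (hH.eigenvalues i - 1)
          linarith
    _ = 1 := by
        rw [← Real.exp_sum, Finset.sum_sub_distrib, ← h2, h3]
        simp

theorem sk_det_continuous {n m : ℕ} (g : (Fin m → ℝ) → (Fin n → ℝ)) (hg : Continuous g) :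
    Continuous (fun u => (sk (g u)).det) := by
  apply Continuous.matrix_det
  apply continuous_matrix
  intro i j
  simp only [sk, Matrix.of_apply]
  have h1 : Continuous (fun u => g u i) := (continuous_apply i).comp hg
  have h2 : Continuous (fun u => g u j) := (continuous_apply j).comp hg
  exact Real.continuous_sinc.comp (continuous_const.mul (h1.sub h2))

theorem tendsto_sinc_atTop : Tendsto Real.sinc atTop (𝓝 0) := by
  have h1 : ∀ᶠ x : ℝ in atTop, |Real.sinc x| ≤ x⁻¹ := by
    filter_upwards [eventually_gt_atTop 0] with x hx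
    rw [Real.sinc_of_ne_zero hx.ne', abs_div, abs_of_pos hx, ← one_div]
    exact div_le_div_of_nonneg_right (Real.abs_sin_le_one x) hx.le
  exact squeeze_zero_norm' h1 tendsto_inv_atTop_zero

/-- a point moving to infinity separates -/
theorem sk_det_cons_tendsto {n : ℕ} (w : Fin n → ℝ) :
    Tendsto (fun v : ℝ => (sk (Fin.cons v w : Fin (n + 1) → ℝ)).det) atTop (𝓝 (sk w).det) := by
  have h1 : ∀ v : ℝ, (sk (Fin.cons v w : Fin (n + 1) → ℝ)).det =
      ∑ j : Fin (n + 1), (-1) ^ (j : ℕ) * (sk (Fin.cons v w : Fin (n + 1) → ℝ)) 0 j *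
        ((sk (Fin.cons v w : Fin (n + 1) → ℝ)).submatrix Fin.succ (Fin.succAbove j)).det :=
    fun v => Matrix.det_succ_row_zero _
  have hbd : ∀ (v : ℝ) (j : Fin (n + 1)),
      |((sk (Fin.cons v w : Fin (n + 1) → ℝ)).submatrix Fin.succ (Fin.succAbove j)).det| ≤
        n.factorial := by
    intro v j
    have := Matrix.det_le (A := (sk (Fin.cons v w : Fin (n + 1) → ℝ)).submatrix Fin.succ
      (Fin.succAbove j)) (abv := AbsoluteValue.abs) (x := (1 : ℝ)) (by
        intro i k
        simp only [sk, Matrix.submatrix_apply, Matrix.of_apply, AbsoluteValue.abs_apply]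
        exact Real.abs_sinc_le_one _)
    simpa using this
  have h2 : Tendsto (fun v : ℝ => ∑ j : Fin (n + 1), (-1) ^ (j : ℕ) *
      (sk (Fin.cons v w : Fin (n + 1) → ℝ)) 0 j *
        ((sk (Fin.cons v w : Fin (n + 1) → ℝ)).submatrix Fin.succ (Fin.succAbove j)).det) atTop
      (𝓝 (∑ j : Fin (n + 1), (Fin.cons (sk w).det (fun _ => 0) : Fin (n + 1) → ℝ) j)) := by
    apply tendsto_finsetSum
    intro j _
    refine Fin.cases ?_ (fun j => ?_) j
    · have e : ∀ v : ℝ, (-1) ^ ((0 : Fin (n + 1)) : ℕ) *
          (sk (Fin.cons v w : Fin (n + 1) → ℝ)) 0 0 *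
          ((sk (Fin.cons v w : Fin (n + 1) → ℝ)).submatrix Fin.succ (Fin.succAbove 0)).det =
          (sk w).det := by
        intro v
        have e1 : (sk (Fin.cons v w : Fin (n + 1) → ℝ)).submatrix Fin.succ (Fin.succAbove 0) =
            sk w := by
          ext i k
          simp [sk]
        rw [e1]
        simp [sk]
      simp_rw [e]
      rw [Fin.cons_zero]
      exact tendsto_const_nhds
    · rw [Fin.cons_succ]
      have e : Tendsto (fun v : ℝ => (sk (Fin.cons v w : Fin (n + 1) → ℝ)) 0 j.succ) atTop
          (𝓝 0) := by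
        have e1 : ∀ v : ℝ, (sk (Fin.cons v w : Fin (n + 1) → ℝ)) 0 j.succ =
            Real.sinc (Real.pi * (v - w j)) := by
          intro v
          simp [sk]
        simp_rw [e1]
        apply tendsto_sinc_atTop.comp
        apply Tendsto.const_mul_atTop Real.pi_pos
        exact tendsto_atTop_add_const_right _ _ tendsto_id
      have e2 : Tendsto (fun v : ℝ => (-1) ^ ((j.succ : Fin (n + 1)) : ℕ) *
          (sk (Fin.cons v w : Fin (n + 1) → ℝ)) 0 j.succ) atTop (𝓝 0) := by
        have := e.const_mul ((-1 : ℝ) ^ ((j.succ : Fin (n + 1)) : ℕ))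
        simpa using this
      exact e2.zero_mul_isBoundedUnder_le ⟨(n.factorial : ℝ), by
        rw [eventually_map]
        exact Eventually.of_forall (fun v => by
          simp only [Function.comp, Real.norm_eq_abs]
          exact hbd v j.succ)⟩
  have h3 : ∑ j : Fin (n + 1), (Fin.cons (sk w).det (fun _ => 0) : Fin (n + 1) → ℝ) j =
      (sk w).det := by
    rw [Fin.sum_univ_succ]
    simp
  rw [h3] at h2
  exact h2.congr (fun v => (h1 v).symm)

end Pool.Agent.H19.HL
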