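import Pool.Agent.H19.HL.Comb
import Pool.Agent.H19.HL.Ineq
import Pool.Agent.H19.HL.Box

/-!
# Level hierarchy: moments of the windows
-/

open Finset Filter Topology MeasureTheory

namespace Pool.Agent.H19.HL

/-- a sequence of positive numbers with the density of the zeros of zeta -/
structure PD where
  /-- the points, from the index `1` on -/
  x : ℕ → ℝ
  /-- the counting function -/
  N : ℝ → ℕ
  hx : ∀ n, 1 ≤ n → ∀ t, x n ≤ t ↔ n ≤ N t
  hpos : ∀ n, 1 ≤ n → 0 < x n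
  asymp : Tendsto (fun T : ℝ => (N T : ℝ) / (T / (2 * Real.pi) * Real.log T)) atTop (𝓝 1)

/-- the normaliser -/
noncomputable def MM (T : ℝ) : ℝ := T / (2 * Real.pi) * Real.log T

theorem MM_tendsto : Tendsto MM atTop atTop := by
  unfold MM
  apply Tendsto.atTop_mul_atTop₀
  · exact tendsto_id.atTop_div_const (by have := Real.pi_pos; positivity)
  · exact Real.tendsto_log_atTop

namespace PD

variable (P : PD)

/-- the normalised points -/
noncomputable def y (T : ℝ) (n : ℕ) : ℝ := P.x n * (Real.log T / (2 * Real.pi))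

/-- the indices of the points up to `T` -/
def F (T : ℝ) : Finset ℕ := Finset.Icc 1 (P.N T)

/-- the last cell plus one -/
noncomputable def I (T : ℝ) : ℤ := ⌊MM T⌋ + 1

/-- the windows -/
noncomputable def J (K : ℕ) (T : ℝ) : Finset ℤ := Finset.Ico (-(K : ℤ)) (I T + K)

/-- the number of points in a window -/
noncomputable def X (T : ℝ) (i : ℤ) (R : ℕ) : ℝ := ((win (P.F T) (P.y T) i R).card : ℝ)

theorem cell {T : ℝ} (hT : 1 < T) {n : ℕ} (hn : n ∈ P.F T) :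
    0 ≤ ⌊P.y T n⌋ ∧ ⌊P.y T n⌋ < I T := by
  unfold F at hn
  rw [mem_Icc] at hn
  have h1 := P.hpos n hn.1
  have h2 := (P.hx n hn.1 T).mpr hn.2
  have hl : 0 < Real.log T := Real.log_pos hT
  have hpi := Real.pi_pos
  unfold y I
  constructor
  · rw [Int.floor_nonneg]
    positivity
  · rw [Int.lt_add_one_iff]
    apply Int.floor_le_floor
    unfold MM
    have h3 : P.x n * (Real.log T / (2 * Real.pi)) ≤ T * (Real.log T / (2 * Real.pi)) :=
      mul_le_mul_of_nonneg_right h2 (by positivity)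
    refine h3.trans (le_of_eq ?_)
    ring

theorem card_J (K : ℕ) {T : ℝ} (hT : 1 ≤ T) : ((J K T).card : ℝ) = I T + 2 * K := by
  unfold J
  rw [Int.card_Ico]
  have h1 : 0 ≤ I T := by
    unfold I
    have : 0 ≤ ⌊MM T⌋ := by
      rw [Int.floor_nonneg]
      unfold MM
      have := Real.log_nonneg hT
      have := Real.pi_pos
      positivity
    omega
  have h2 : (((I T + K - -(K : ℤ)).toNat : ℕ) : ℤ) = I T + 2 * K := by
    rw [Int.toNat_of_nonneg (by omega)]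
    ring
  have h3 : ((((I T + K - -(K : ℤ)).toNat : ℕ) : ℤ) : ℝ) = ((I T + 2 * K : ℤ) : ℝ) := by
    rw [h2]
  push_cast at h3
  exact h3

theorem card_J_le (K : ℕ) (ε : ℝ) (hε : 0 < ε) :
    ∀ᶠ T in atTop, ((J K T).card : ℝ) ≤ (1 + ε) * MM T := by
  have h1 : ∀ᶠ T in atTop, (1 + 2 * (K : ℝ)) / ε ≤ MM T :=
    MM_tendsto.eventually_ge_atTop _
  filter_upwards [h1, eventually_ge_atTop 1] with T h2 hT
  rw [card_J K hT]
  rw [div_le_iff₀ hε] at h2
  have h3 : (I T : ℝ) ≤ MM T + 1 := by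
    unfold I
    push_cast
    linarith [Int.floor_le (MM T)]
  linarith

theorem N_ge (ε : ℝ) (hε : 0 < ε) : ∀ᶠ T in atTop, (1 - ε) * MM T ≤ P.N T := by
  have h1 := P.asymp.eventually_const_le (show 1 - ε < 1 by linarith)
  filter_upwards [h1, MM_tendsto.eventually_gt_atTop 0] with T h2 h3
  unfold MM at h3 ⊢
  rwa [le_div_iff₀ h3] at h2

/-- the first moment -/
theorem sum_X (R K : ℕ) (hK : R ≤ K) {T : ℝ} (hT : 1 < T) :
    ∑ i ∈ J K T, P.X T i R = R * P.N T := by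
  have h1 := sum_win (P.F T) (P.y T) R K (I T) hK (fun n hn => P.cell hT hn)
  have h2 : (P.F T).card = P.N T := by
    unfold F
    rw [Nat.card_Icc]
    simp
  rw [h2] at h1
  unfold X J
  exact_mod_cast h1

/-- the number of tuples -/
noncomputable def S (r : ℕ) (a b : Fin r → ℝ) (T : ℝ) : ℝ :=
  ((tup (P.F T) (P.y T) r a b).card : ℝ)

/-- the correlation statement with `r` differences, along a filter -/
def Level (l : Filter ℝ) (r : ℕ) : Prop :=
  ∀ a b : Fin r → ℝ, (∀ i, a i < b i) →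
    Tendsto (fun T => P.S r a b T / MM T) l (𝓝 (∫ u in Set.Icc a b, kd r u))

variable {P} {l : Filter ℝ}

theorem mom_desc (hl : l ≤ atTop) {q : ℕ} (h : P.Level l q) (R K : ℕ) :
    ∀ᶠ T in l, ∑ i ∈ J K T, ((win (P.F T) (P.y T) i R).card.descFactorial (q + 1) : ℝ) ≤
      (R * ((R : ℝ) + 1) ^ q + 1) * MM T := by
  have h1 : ∀ s ∈ range R, Tendsto (fun T => P.S q (fun _ => -((s : ℝ) + 1))
      (fun _ => (R : ℝ) - s) T / MM T) l
      (𝓝 (∫ u in Set.Icc (fun _ : Fin q => -((s : ℝ) + 1)) (fun _ => (R : ℝ) - s), kd q u)) := by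
    intro s _
    apply h
    intro i
    have : (0 : ℝ) ≤ R := Nat.cast_nonneg _
    linarith
  have h2 := tendsto_finsetSum (range R) h1
  have h3 : ∑ s ∈ range R, ∫ u in Set.Icc (fun _ : Fin q => -((s : ℝ) + 1))
      (fun _ => (R : ℝ) - s), kd q u < R * ((R : ℝ) + 1) ^ q + 1 := by
    have : ∑ s ∈ range R, ∫ u in Set.Icc (fun _ : Fin q => -((s : ℝ) + 1))
        (fun _ => (R : ℝ) - s), kd q u ≤ ∑ s ∈ range R, ((R : ℝ) + 1) ^ q :=
      sum_le_sum (fun s _ => box_le q R s)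
    rw [sum_const, card_range, nsmul_eq_mul] at this
    linarith
  have h4 := h2.eventually_lt_const h3
  have h5 : ∀ᶠ T in l, 0 < MM T := hl (MM_tendsto.eventually_gt_atTop 0)
  filter_upwards [h4, h5] with T h6 h7
  rw [← Finset.sum_div, div_lt_iff₀ h7] at h6
  refine le_trans ?_ h6.le
  have h8 := sum_desc (P.F T) (P.y T) R q (J K T)
  unfold S
  exact_mod_cast h8

theorem mom_pow (hl : l ≤ atTop) {q : ℕ} (h : P.Level l q) (ε : ℝ) (hε : 0 < ε) :
    ∃ C : ℝ, 0 ≤ C ∧ ∀ R K : ℕ, ∀ᶠ T in l, (1 - ε) * ∑ i ∈ J K T, P.X T i R ^ (q + 1) ≤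
      (R * ((R : ℝ) + 1) ^ q + C) * MM T := by
  obtain ⟨C, hC, h1⟩ := pow_le_desc (q + 1) (by omega) ε hε
  refine ⟨1 + 2 * C, by positivity, fun R K => ?_⟩
  have h2 := mom_desc hl h R K
  have h3 : ∀ᶠ T in l, ((J K T).card : ℝ) ≤ (1 + 1) * MM T := hl (card_J_le K 1 one_pos)
  filter_upwards [h2, h3] with T h4 h5
  rw [Finset.mul_sum]
  calc ∑ i ∈ J K T, (1 - ε) * P.X T i R ^ (q + 1)
      ≤ ∑ i ∈ J K T, (((win (P.F T) (P.y T) i R).card.descFactorial (q + 1) : ℝ) + C) :=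
        sum_le_sum (fun i _ => h1 _)
    _ = ∑ i ∈ J K T, ((win (P.F T) (P.y T) i R).card.descFactorial (q + 1) : ℝ) +
        (J K T).card * C := by
        rw [sum_add_distrib, sum_const, nsmul_eq_mul]
    _ ≤ (R * ((R : ℝ) + 1) ^ q + 1) * MM T + (1 + 1) * MM T * C :=
        add_le_add h4 (mul_le_mul_of_nonneg_right h5 hC)
    _ = _ := by ring

theorem ratio_tendsto (q : ℕ) (C : ℝ) :
    Tendsto (fun R : ℕ => (R * ((R : ℝ) + 1) ^ q + C) / (R : ℝ) ^ (q + 1)) atTop (𝓝 1) := by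
  have h1 : Tendsto (fun R : ℕ => ((R : ℝ) + 1) / R) atTop (𝓝 1) := by
    have : Tendsto (fun R : ℕ => 1 + 1 / (R : ℝ)) atTop (𝓝 (1 + 0)) :=
      tendsto_const_nhds.add tendsto_one_div_atTop_nhds_zero_nat
    rw [add_zero] at this
    refine this.congr' ?_
    filter_upwards [eventually_gt_atTop 0] with R hR
    have : (R : ℝ) ≠ 0 := by exact_mod_cast hR.ne'
    field_simp
  have h2 : Tendsto (fun R : ℕ => (((R : ℝ) + 1) / R) ^ q + C / (R : ℝ) ^ (q + 1)) atTop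
      (𝓝 (1 ^ q + 0)) := by
    apply Tendsto.add (h1.pow q)
    apply Tendsto.div_atTop tendsto_const_nhds
    exact (tendsto_pow_atTop (by omega)).comp tendsto_natCast_atTop_atTop
  rw [one_pow, add_zero] at h2
  refine h2.congr' ?_
  filter_upwards [eventually_gt_atTop 0] with R hR
  have : (R : ℝ) ≠ 0 := by exact_mod_cast hR.ne'
  rw [div_pow, add_div, pow_succ]
  field_simp

/-- the windows are concentrated -/
theorem conc (hl : l ≤ atTop) {q : ℕ} (hq : 1 ≤ q) (h : P.Level l q) (δ : ℝ) (hδ : 0 < δ) :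
    ∃ R0 : ℕ, ∀ R : ℕ, R0 ≤ R → ∀ K : ℕ, R ≤ K → ∀ᶠ T in l,
      ∑ i ∈ J K T, |P.X T i R - R| ^ (q + 1) ≤ δ * (R : ℝ) ^ (q + 1) * MM T := by
  set ε : ℝ := min (1 / 2) (δ / (2 * (q + 1) + 3)) with hεd
  have hε : 0 < ε := lt_min (by norm_num) (by positivity)
  have hε1 : ε ≤ 1 / 2 := min_le_left _ _
  have hε2 : ε * (2 * (q + 1) + 3) ≤ δ := by
    have := min_le_right (1 / 2 : ℝ) (δ / (2 * (q + 1) + 3))
    rw [← hεd, le_div_iff₀ (by positivity)] at this
    exact this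
  obtain ⟨C, hC, h1⟩ := mom_pow hl h ε hε
  have h2 := (ratio_tendsto q C).eventually_lt_const (show (1 : ℝ) < 1 + ε by linarith)
  obtain ⟨R1, hR1⟩ := eventually_atTop.mp h2
  refine ⟨max R1 1, fun R hR K hK => ?_⟩
  have hR1' : R1 ≤ R := (le_max_left _ _).trans hR
  have hRpos : 1 ≤ R := (le_max_right _ _).trans hR
  have hRr : (0 : ℝ) < R := by exact_mod_cast hRpos
  have h3 := hR1 R hR1'
  rw [div_lt_iff₀ (by positivity)] at h3
  have h4 : ∀ᶠ T in l, ((J K T).card : ℝ) ≤ (1 + ε) * MM T := hl (card_J_le K ε hε)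
  have h5 : ∀ᶠ T in l, (1 - ε) * MM T ≤ P.N T := hl (P.N_ge ε hε)
  have h6 : ∀ᶠ T in l, 0 < MM T := hl (MM_tendsto.eventually_gt_atTop 0)
  have h7 : ∀ᶠ T : ℝ in l, 1 < T := hl (eventually_gt_atTop 1)
  filter_upwards [h1 R K, h4, h5, h6, h7] with T g1 g2 g3 g4 g5
  have e1 : ∑ i ∈ J K T, |P.X T i R - R| ^ (q + 1) ≤
      ∑ i ∈ J K T, (P.X T i R ^ (q + 1) - (R : ℝ) ^ (q + 1) -
        ((q + 1 : ℕ) : ℝ) * (R : ℝ) ^ (q + 1 - 1) * (P.X T i R - R)) := by
    apply sum_le_sum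
    intro i _
    apply convex_ineq _ _ (Nat.cast_nonneg _) hRr.le
    omega
  have e2 : ∑ i ∈ J K T, (P.X T i R ^ (q + 1) - (R : ℝ) ^ (q + 1) -
        ((q + 1 : ℕ) : ℝ) * (R : ℝ) ^ (q + 1 - 1) * (P.X T i R - R)) =
      ∑ i ∈ J K T, P.X T i R ^ (q + 1) + q * (R : ℝ) ^ (q + 1) * (J K T).card -
        (q + 1) * (R : ℝ) ^ (q + 1) * P.N T := by
    rw [sum_sub_distrib, sum_sub_distrib, sum_const, ← mul_sum, sum_sub_distrib, sum_const,
      P.sum_X R K hK g5]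
    simp only [nsmul_eq_mul, Nat.add_sub_cancel]
    push_cast
    ring
  rw [e2] at e1
  refine e1.trans ?_
  set A : ℝ := ∑ i ∈ J K T, P.X T i R ^ (q + 1) with hA
  set Q : ℝ := (R : ℝ) ^ (q + 1) with hQ
  have hQ0 : 0 < Q := by rw [hQ]; positivity
  have f1 : (1 - ε) * A ≤ (1 + ε) * Q * MM T :=
    g1.trans (mul_le_mul_of_nonneg_right h3.le g4.le)
  have f2 : A ≤ (1 + 4 * ε) * Q * MM T := by
    have hA' : (1 - ε) * A ≤ (1 - ε) * ((1 + 4 * ε) * Q * MM T) := by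
      refine f1.trans ?_
      have : (1 + ε) ≤ (1 - ε) * (1 + 4 * ε) := by nlinarith
      have h8 : 0 ≤ Q * MM T := by positivity
      nlinarith
    exact le_of_mul_le_mul_left hA' (by linarith)
  have f3 : (q : ℝ) * Q * (J K T).card ≤ q * Q * ((1 + ε) * MM T) :=
    mul_le_mul_of_nonneg_left g2 (by positivity)
  have f4 : ((q : ℝ) + 1) * Q * ((1 - ε) * MM T) ≤ (q + 1) * Q * P.N T :=
    mul_le_mul_of_nonneg_left g3 (by positivity)
  have f5 : ε * (2 * ((q : ℝ) + 1) + 3) * (Q * MM T) ≤ δ * (Q * MM T) :=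
    mul_le_mul_of_nonneg_right hε2 (by positivity)
  nlinarith

end PD

end Pool.Agent.H19.HL
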