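import Pool.Agent.H19.HL.Moment

/-!
# Level hierarchy: from `r + 1` differences to `r` differences
-/

open Finset Filter Topology MeasureTheory

namespace Pool.Agent.H19.HL

namespace PD

variable {P : PD} {l : Filter ℝ}

/-- sums over shifted cells -/
theorem sum_shift (g : ℤ → ℝ) (hg : ∀ i, 0 ≤ g i) (d : ℤ) (K : ℕ) (T : ℝ) (h1 : -(K : ℤ) ≤ d)
    (h2 : d ≤ K) : ∑ i ∈ Finset.Ico 0 (I T), g (i + d) ≤ ∑ i ∈ J K T, g i := by
  classical
  have h3 : ∑ i ∈ Finset.Ico 0 (I T), g (i + d) =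
      ∑ i ∈ (Finset.Ico 0 (I T)).map (addRightEmbedding d), g i := by
    rw [sum_map]
    rfl
  rw [h3]
  apply sum_le_sum_of_subset_of_nonneg
  · intro i hi
    rw [Finset.mem_map] at hi
    obtain ⟨j, hj, rfl⟩ := hi
    rw [mem_Ico] at hj
    unfold J
    rw [mem_Ico]
    simp only [addRightEmbedding_apply]
    omega
  · intro i _ _
    exact hg i

/-- the error of one tuple -/
noncomputable def err (P : PD) (T : ℝ) (c R : ℕ) (i : ℤ) : ℝ :=
  |P.X T (i + (c + 1)) (R - 1) - ((R - 1 : ℕ) : ℝ)| + |P.X T (i + c) (R + 1) - ((R + 1 : ℕ) : ℝ)|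
    + 1

theorem nj_err (T : ℝ) (c R : ℕ) (hR : 1 ≤ R) (n : ℕ) :
    |((nj (P.F T) (P.y T) c R n).card : ℝ) - R| ≤ P.err T c R ⌊P.y T n⌋ := by
  have h1 : ((nj (P.F T) (P.y T) c R n).card : ℝ) ≤ P.X T (⌊P.y T n⌋ + c) (R + 1) := by
    unfold X
    exact_mod_cast nj_le (P.F T) (P.y T) c R n
  have h2 : P.X T (⌊P.y T n⌋ + (c + 1)) (R - 1) ≤ ((nj (P.F T) (P.y T) c R n).card : ℝ) := by
    unfold X
    rw [← add_assoc]
    exact_mod_cast le_nj (P.F T) (P.y T) c R n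
  unfold err
  have h3 : ((R - 1 : ℕ) : ℝ) = R - 1 := by
    rw [Nat.cast_sub hR, Nat.cast_one]
  have h4 : ((R + 1 : ℕ) : ℝ) = R + 1 := by push_cast; ring
  rw [h3, h4]
  have a1 := abs_nonneg (P.X T (⌊P.y T n⌋ + (c + 1)) (R - 1) - ((R : ℝ) - 1))
  have a2 := abs_nonneg (P.X T (⌊P.y T n⌋ + c) (R + 1) - ((R : ℝ) + 1))
  have a3 := le_abs_self (P.X T (⌊P.y T n⌋ + c) (R + 1) - ((R : ℝ) + 1))
  have a4 := neg_abs_le (P.X T (⌊P.y T n⌋ + (c + 1)) (R - 1) - ((R : ℝ) - 1))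
  rw [abs_le]
  constructor <;> linarith

/-- the sum over the tuples as a sum over the cells -/
theorem err_sum {r : ℕ} (a b : Fin r → ℝ) (b0 : ℕ) (ha : ∀ i, -(b0 : ℝ) ≤ a i)
    (hb : ∀ i, b i ≤ b0) (c R : ℕ) {T : ℝ} (hT : 1 < T) :
    ∑ j ∈ tup (P.F T) (P.y T) r a b, P.err T c R ⌊P.y T (j (Fin.last r))⌋ ≤
      ∑ i ∈ Finset.Ico 0 (I T), P.X T (i - b0) (2 * b0 + 1) ^ (r + 1) * P.err T c R i := by
  classical
  have h1 : ∀ j ∈ tup (P.F T) (P.y T) r a b,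
      ⌊P.y T (j (Fin.last r))⌋ ∈ Finset.Ico 0 (I T) := by
    intro j hj
    rw [mem_tup] at hj
    rw [mem_Ico]
    exact P.cell hT (hj.1 _)
  rw [← sum_fiberwise_of_maps_to h1]
  apply sum_le_sum
  intro i _
  have h2 : ∀ j ∈ (tup (P.F T) (P.y T) r a b).filter (fun j => ⌊P.y T (j (Fin.last r))⌋ = i),
      P.err T c R ⌊P.y T (j (Fin.last r))⌋ = P.err T c R i := by
    intro j hj
    rw [mem_filter] at hj
    rw [hj.2]
  rw [sum_congr rfl h2, sum_const, nsmul_eq_mul]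
  apply mul_le_mul_of_nonneg_right
  · have h3 := card_cell (P.F T) (P.y T) r a b b0 ha hb i
    unfold X
    exact_mod_cast h3
  · unfold err
    positivity

/-- the sum of the powers of the errors -/
theorem err_pow (c R : ℕ) (p K : ℕ) (hK : c + 1 ≤ K) (T : ℝ) :
    ∑ i ∈ Finset.Ico 0 (I T), P.err T c R i ^ p ≤
      3 ^ p * (∑ i ∈ J K T, |P.X T i (R - 1) - ((R - 1 : ℕ) : ℝ)| ^ p +
        ∑ i ∈ J K T, |P.X T i (R + 1) - ((R + 1 : ℕ) : ℝ)| ^ p + (J K T).card) := by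
  have h1 := sum_shift (fun i => |P.X T i (R - 1) - ((R - 1 : ℕ) : ℝ)| ^ p)
    (fun i => by positivity) ((c : ℤ) + 1) K T (by omega) (by omega)
  have h2 := sum_shift (fun i => |P.X T i (R + 1) - ((R + 1 : ℕ) : ℝ)| ^ p)
    (fun i => by positivity) (c : ℤ) K T (by omega) (by omega)
  have h3 : ((Finset.Ico 0 (I T)).card : ℝ) ≤ (J K T).card := by
    have := sum_shift (fun _ => (1 : ℝ)) (fun _ => zero_le_one) 0 K T (by omega) (by omega)
    simpa using this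
  calc ∑ i ∈ Finset.Ico 0 (I T), P.err T c R i ^ p
      ≤ ∑ i ∈ Finset.Ico 0 (I T), 3 ^ p * (|P.X T (i + (c + 1)) (R - 1) - ((R - 1 : ℕ) : ℝ)| ^ p +
        |P.X T (i + c) (R + 1) - ((R + 1 : ℕ) : ℝ)| ^ p + 1) := by
        apply sum_le_sum
        intro i _
        exact three_pow _ _ (abs_nonneg _) (abs_nonneg _) p
    _ = 3 ^ p * (∑ i ∈ Finset.Ico 0 (I T), |P.X T (i + (c + 1)) (R - 1) -
          ((R - 1 : ℕ) : ℝ)| ^ p +
        ∑ i ∈ Finset.Ico 0 (I T), |P.X T (i + c) (R + 1) - ((R + 1 : ℕ) : ℝ)| ^ p +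
          (Finset.Ico 0 (I T)).card) := by
        rw [← mul_sum, sum_add_distrib, sum_add_distrib, sum_const, nsmul_eq_mul, mul_one]
    _ ≤ _ := by
        apply mul_le_mul_of_nonneg_left _ (by positivity)
        linarith

/-- the comparison of the two levels -/
theorem compare {r : ℕ} (a b : Fin r → ℝ) (b0 : ℕ) (ha : ∀ i, -(b0 : ℝ) ≤ a i)
    (hb : ∀ i, b i ≤ b0) (R : ℕ) (hR : 1 ≤ R) (K : ℕ) (hK : b0 + 1 + 1 ≤ K) {T : ℝ} (hT : 1 < T)
    (η : ℝ) (hη : 0 < η) :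
    |P.S (r + 1) (Fin.cons ((b0 + 1 : ℕ) : ℝ) a) (Fin.cons (((b0 + 1 : ℕ) : ℝ) + R) b) T -
      R * P.S r a b T| ≤
      η * ∑ i ∈ J K T, P.X T i (2 * b0 + 1) ^ (r + 1 + 1) +
        3 ^ (r + 1 + 1) * (∑ i ∈ J K T, |P.X T i (R - 1) - ((R - 1 : ℕ) : ℝ)| ^ (r + 1 + 1) +
        ∑ i ∈ J K T, |P.X T i (R + 1) - ((R + 1 : ℕ) : ℝ)| ^ (r + 1 + 1) + (J K T).card) /
          η ^ (r + 1) := by
  have h1 : P.S (r + 1) (Fin.cons ((b0 + 1 : ℕ) : ℝ) a) (Fin.cons (((b0 + 1 : ℕ) : ℝ) + R) b) T =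
      ∑ j ∈ tup (P.F T) (P.y T) r a b,
        ((nj (P.F T) (P.y T) ((b0 + 1 : ℕ) : ℝ) R (j (Fin.last r))).card : ℝ) := by
    unfold S
    rw [card_cons (P.F T) (P.y T) r a b ((b0 + 1 : ℕ) : ℝ) R (by positivity)
      (fun i => by have := hb i; push_cast; linarith)]
    push_cast
    rfl
  have h2 : R * P.S r a b T = ∑ _j ∈ tup (P.F T) (P.y T) r a b, (R : ℝ) := by
    unfold S
    rw [sum_const, nsmul_eq_mul, mul_comm]
  rw [h1, h2, ← sum_sub_distrib]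
  calc |∑ j ∈ tup (P.F T) (P.y T) r a b,
        (((nj (P.F T) (P.y T) ((b0 + 1 : ℕ) : ℝ) R (j (Fin.last r))).card : ℝ) - R)|
      ≤ ∑ j ∈ tup (P.F T) (P.y T) r a b,
        |(((nj (P.F T) (P.y T) ((b0 + 1 : ℕ) : ℝ) R (j (Fin.last r))).card : ℝ) - R)| :=
        abs_sum_le_sum_abs _ _
    _ ≤ ∑ j ∈ tup (P.F T) (P.y T) r a b, P.err T (b0 + 1) R ⌊P.y T (j (Fin.last r))⌋ :=
        sum_le_sum (fun j _ => nj_err T (b0 + 1) R hR _)
    _ ≤ ∑ i ∈ Finset.Ico 0 (I T), P.X T (i - b0) (2 * b0 + 1) ^ (r + 1) *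
          P.err T (b0 + 1) R i := err_sum a b b0 ha hb (b0 + 1) R hT
    _ ≤ ∑ i ∈ Finset.Ico 0 (I T), (η * P.X T (i - b0) (2 * b0 + 1) ^ (r + 1 + 1) +
          P.err T (b0 + 1) R i ^ (r + 1 + 1) / η ^ (r + 1)) := by
        apply sum_le_sum
        intro i _
        apply young _ _ _ (Nat.cast_nonneg _) _ hη
        unfold err
        positivity
    _ = η * ∑ i ∈ Finset.Ico 0 (I T), P.X T (i + (-(b0 : ℤ))) (2 * b0 + 1) ^ (r + 1 + 1) +
          (∑ i ∈ Finset.Ico 0 (I T), P.err T (b0 + 1) R i ^ (r + 1 + 1)) / η ^ (r + 1) := by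
        rw [sum_add_distrib, ← mul_sum, ← Finset.sum_div]
        rfl
    _ ≤ _ := by
        apply add_le_add
        · apply mul_le_mul_of_nonneg_left _ hη.le
          exact sum_shift (fun i => P.X T i (2 * b0 + 1) ^ (r + 1 + 1))
            (fun i => by unfold X; positivity) (-(b0 : ℤ)) K T (by omega) (by omega)
        · apply div_le_div_of_nonneg_right _ (by positivity)
          exact err_pow (b0 + 1) R (r + 1 + 1) K hK T

/-- **One level down.** -/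
theorem step (hl : l ≤ atTop) {r : ℕ} (h : P.Level l (r + 1)) : P.Level l r := by
  intro a b hab
  obtain ⟨b0, hb0⟩ : ∃ b0 : ℕ, ∀ i, -(b0 : ℝ) ≤ a i ∧ b i ≤ b0 := by
    obtain ⟨B, hB⟩ : ∃ B : ℝ, ∀ i, |a i| ≤ B ∧ |b i| ≤ B := by
      refine ⟨∑ i, (|a i| + |b i|), fun i => ?_⟩
      have h1 : |a i| + |b i| ≤ ∑ i, (|a i| + |b i|) :=
        Finset.single_le_sum (f := fun i => |a i| + |b i|) (fun i _ => by positivity)
          (Finset.mem_univ i)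
      constructor
      · linarith [abs_nonneg (b i)]
      · linarith [abs_nonneg (a i)]
    obtain ⟨n, hn⟩ := exists_nat_ge B
    refine ⟨n, fun i => ⟨?_, ?_⟩⟩
    · have := (hB i).1
      have := neg_abs_le (a i)
      linarith
    · have := (hB i).2
      have := le_abs_self (b i)
      linarith
  have ha : ∀ i, -(b0 : ℝ) ≤ a i := fun i => (hb0 i).1
  have hb : ∀ i, b i ≤ b0 := fun i => (hb0 i).2
  rw [Metric.tendsto_nhds]
  intro ε hε
  set q : ℕ := r + 1 with hq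
  set p : ℕ := q + 1 with hp
  set w : ℕ := 2 * b0 + 1 with hw
  -- the moment of the short windows
  obtain ⟨C1, hC1, hmom⟩ := mom_pow hl h (1 / 2) (by norm_num)
  set CW : ℝ := 2 * (w * ((w : ℝ) + 1) ^ q + C1) with hCW
  have hCW0 : 0 ≤ CW := by positivity
  -- the parameters
  set θ : ℝ := ε / (8 * (CW + 1)) with hθ
  have hθ0 : 0 < θ := by positivity
  have hθ1 : θ * CW ≤ ε / 8 := by
    rw [hθ, div_mul_eq_mul_div, div_le_div_iff₀ (by positivity) (by norm_num)]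
    nlinarith
  set δ : ℝ := ε * θ ^ q / (8 * (3 ^ p * (1 + 2 ^ p))) with hδ
  have hδ0 : 0 < δ := by positivity
  have hδ1 : 3 ^ p * ((1 + 2 ^ p) * δ) / θ ^ q ≤ ε / 8 := by
    rw [hδ]
    have : (3 : ℝ) ^ p * ((1 + 2 ^ p) * (ε * θ ^ q / (8 * (3 ^ p * (1 + 2 ^ p))))) / θ ^ q =
        ε / 8 := by
      field_simp
    exact this.le
  obtain ⟨R0, hR0⟩ := conc hl (by omega : 1 ≤ q) h δ hδ0
  -- the choice of `R`
  have hbox := (box_tendsto r a b ((b0 + 1 : ℕ) : ℝ)).comp tendsto_natCast_atTop_atTop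
  rw [Metric.tendsto_nhds] at hbox
  have hbox' := hbox (ε / 4) (by positivity)
  have hsmall : Tendsto (fun R : ℕ => 3 ^ p * 2 / θ ^ q / (R : ℝ) ^ p) atTop (𝓝 0) := by
    apply Tendsto.div_atTop tendsto_const_nhds
    exact (tendsto_pow_atTop (by omega)).comp tendsto_natCast_atTop_atTop
  have hsmall' := hsmall.eventually_le_const (show (0 : ℝ) < ε / 8 by positivity)
  obtain ⟨R, hR1, hR2, hR3, hR4⟩ : ∃ R : ℕ, R0 ≤ R - 1 ∧ 1 ≤ R ∧
      dist ((fun R : ℝ => (∫ u in Set.Icc (Fin.cons ((b0 + 1 : ℕ) : ℝ) a : Fin (r + 1) → ℝ)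
        (Fin.cons (((b0 + 1 : ℕ) : ℝ) + R) b), kd (r + 1) u) / R) ((R : ℕ) : ℝ))
        (∫ u in Set.Icc a b, kd r u) < ε / 4 ∧
      3 ^ p * 2 / θ ^ q / (R : ℝ) ^ p ≤ ε / 8 := by
    have := (eventually_ge_atTop (R0 + 1)).and (hbox'.and hsmall')
    obtain ⟨R, h1, h2, h3⟩ := this.exists
    exact ⟨R, by omega, by omega, h2, h3⟩
  have hRr : (0 : ℝ) < R := by exact_mod_cast hR2
  set K : ℕ := max (R + 1) (b0 + 1 + 1) with hK
  have hK1 : R + 1 ≤ K := le_max_left _ _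
  have hK2 : b0 + 1 + 1 ≤ K := le_max_right _ _
  have g1 := hR0 (R - 1) hR1 K (by omega)
  have g2 := hR0 (R + 1) (by omega) K hK1
  have g3 := hmom w K
  have g4 : ∀ᶠ T in l, ((J K T).card : ℝ) ≤ (1 + 1) * MM T := hl (card_J_le K 1 one_pos)
  have g5 : ∀ᶠ T in l, 0 < MM T := hl (MM_tendsto.eventually_gt_atTop 0)
  have g6 : ∀ᶠ T : ℝ in l, 1 < T := hl (eventually_gt_atTop 1)
  have g7 := h (Fin.cons ((b0 + 1 : ℕ) : ℝ) a) (Fin.cons (((b0 + 1 : ℕ) : ℝ) + R) b) (by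
    intro i
    refine Fin.cases ?_ (fun i => ?_) i
    · rw [Fin.cons_zero, Fin.cons_zero]
      linarith
    · rw [Fin.cons_succ, Fin.cons_succ]
      exact hab i)
  rw [Metric.tendsto_nhds] at g7
  have g7' := g7 (ε / 4) (by positivity)
  filter_upwards [g1, g2, g3, g4, g5, g6, g7'] with T t1 t2 t3 t4 t5 t6 t7
  have hcmp := compare (P := P) a b b0 ha hb R hR2 K hK2 t6 (θ * R) (by positivity)
  set S1 : ℝ := P.S (r + 1) (Fin.cons ((b0 + 1 : ℕ) : ℝ) a)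
    (Fin.cons (((b0 + 1 : ℕ) : ℝ) + R) b) T with hS1
  set S0 : ℝ := P.S r a b T with hS0
  set I1 : ℝ := ∫ u in Set.Icc (Fin.cons ((b0 + 1 : ℕ) : ℝ) a : Fin (r + 1) → ℝ)
        (Fin.cons (((b0 + 1 : ℕ) : ℝ) + R) b), kd (r + 1) u with hI1
  set I0 : ℝ := ∫ u in Set.Icc a b, kd r u with hI0
  rw [Real.dist_eq] at t7 hR3 ⊢
  -- the error
  have hR1' : ((R - 1 : ℕ) : ℝ) ≤ R := by exact_mod_cast Nat.sub_le R 1
  have hR2' : ((R + 1 : ℕ) : ℝ) ≤ 2 * R := by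
    push_cast
    have : (1 : ℝ) ≤ R := by exact_mod_cast hR2
    linarith
  have u1 : ∑ i ∈ J K T, |P.X T i (R - 1) - ((R - 1 : ℕ) : ℝ)| ^ p ≤ δ * (R : ℝ) ^ p * MM T := by
    refine t1.trans ?_
    apply mul_le_mul_of_nonneg_right _ t5.le
    apply mul_le_mul_of_nonneg_left _ hδ0.le
    exact pow_le_pow_left₀ (Nat.cast_nonneg _) hR1' _
  have u2 : ∑ i ∈ J K T, |P.X T i (R + 1) - ((R + 1 : ℕ) : ℝ)| ^ p ≤
      δ * (2 ^ p * (R : ℝ) ^ p) * MM T := by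
    refine t2.trans ?_
    apply mul_le_mul_of_nonneg_right _ t5.le
    apply mul_le_mul_of_nonneg_left _ hδ0.le
    rw [← mul_pow]
    exact pow_le_pow_left₀ (Nat.cast_nonneg _) hR2' _
  have u3 : ∑ i ∈ J K T, P.X T i w ^ p ≤ CW * MM T := by
    have e : (1 - 1 / 2 : ℝ) * ∑ i ∈ J K T, P.X T i w ^ p ≤
      (w * ((w : ℝ) + 1) ^ q + C1) * MM T := t3
    rw [hCW]
    linarith
  have hRp : (0 : ℝ) < (R : ℝ) ^ p := by positivity
  have u4 : |S1 - R * S0| ≤ R * MM T * (ε / 8 + ε / 8 + ε / 8) := by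
    refine hcmp.trans ?_
    have v1 : θ * R * ∑ i ∈ J K T, P.X T i w ^ p ≤ R * MM T * (ε / 8) := by
      calc θ * R * ∑ i ∈ J K T, P.X T i w ^ p ≤ θ * R * (CW * MM T) :=
            mul_le_mul_of_nonneg_left u3 (by positivity)
        _ = R * MM T * (θ * CW) := by ring
        _ ≤ R * MM T * (ε / 8) := mul_le_mul_of_nonneg_left hθ1 (by positivity)
    have v2 : 3 ^ p * (∑ i ∈ J K T, |P.X T i (R - 1) - ((R - 1 : ℕ) : ℝ)| ^ p +
        ∑ i ∈ J K T, |P.X T i (R + 1) - ((R + 1 : ℕ) : ℝ)| ^ p + (J K T).card) /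
          (θ * R) ^ q ≤ R * MM T * (ε / 8 + ε / 8) := by
      rw [div_le_iff₀ (by positivity)]
      calc 3 ^ p * (∑ i ∈ J K T, |P.X T i (R - 1) - ((R - 1 : ℕ) : ℝ)| ^ p +
          ∑ i ∈ J K T, |P.X T i (R + 1) - ((R + 1 : ℕ) : ℝ)| ^ p + (J K T).card)
          ≤ 3 ^ p * (δ * (R : ℝ) ^ p * MM T + δ * (2 ^ p * (R : ℝ) ^ p) * MM T +
            (1 + 1) * MM T) := by
            apply mul_le_mul_of_nonneg_left _ (by positivity)
            linarith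
        _ = R * MM T * (3 ^ p * ((1 + 2 ^ p) * δ) / θ ^ q + 3 ^ p * 2 / θ ^ q / (R : ℝ) ^ p) *
            (θ * R) ^ q := by
            have e1 : (R : ℝ) ^ p = (R : ℝ) ^ q * R := by rw [hp, pow_succ]
            rw [mul_pow, e1]
            field_simp
            ring
        _ ≤ R * MM T * (ε / 8 + ε / 8) * (θ * R) ^ q := by
            apply mul_le_mul_of_nonneg_right _ (by positivity)
            apply mul_le_mul_of_nonneg_left _ (by positivity)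
            linarith
    calc _ ≤ R * MM T * (ε / 8) + R * MM T * (ε / 8 + ε / 8) := add_le_add v1 v2
      _ = _ := by ring
  have u5 : |S1 / (R * MM T) - S0 / MM T| ≤ ε / 8 + ε / 8 + ε / 8 := by
    have e : S1 / (R * MM T) - S0 / MM T = (S1 - R * S0) / (R * MM T) := by
      field_simp
    rw [e, abs_div, abs_of_pos (show 0 < R * MM T by positivity), div_le_iff₀ (by positivity)]
    linarith
  have u6 : |S1 / (R * MM T) - I1 / R| < ε / 4 := by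
    have e : S1 / (R * MM T) - I1 / R = (S1 / MM T - I1) / R := by
      field_simp
    rw [e, abs_div, abs_of_pos hRr, div_lt_iff₀ hRr]
    have : (1 : ℝ) ≤ R := by exact_mod_cast hR2
    nlinarith
  have u7 : S0 / MM T - I0 = -(S1 / (R * MM T) - S0 / MM T) + (S1 / (R * MM T) - I1 / R) +
      (I1 / R - I0) := by ring
  rw [u7]
  refine (abs_add_three _ _ _).trans_lt ?_
  rw [abs_neg]
  linarith

end PD

end Pool.Agent.H19.HL
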