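import Pool.Graph.R_seed8.H382R2.Final0
import Pool.Agent.H19.HL.Step

/-!
# Level hierarchy: the number of zeros of zeta
-/

open Finset Filter Topology MeasureTheory

namespace Pool.Agent.H19.HL

open SG (NZ ord)

theorem NZ_double (T : ℝ) (hT : 1 ≤ T) :
    NZ (2 * T) ≤ NZ T + H370.NN riemannZeta T (2 * T) ∧
    NZ T + H370.NN riemannZeta T (2 * T) ≤ NZ (2 * T) := by
  constructor
  · exact SG.NZ_le_add T (2 * T) hT
  · classical
    have hfin := H370.zset_finite H370.good_zeta T (2 * T) hT
    have hNN : H370.NN riemannZeta T (2 * T) = ∑ s ∈ hfin.toFinset, SG.zmult s :=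
      finsum_mem_eq_finite_toFinset_sum _ hfin
    rw [hNN]
    apply SG.NZ_add_le T (2 * T) (by linarith)
    intro z hz
    rw [Set.Finite.mem_toFinset] at hz
    exact ⟨⟨hz.2.2.2.2, hz.1, hz.2.1, by linarith [hz.2.2.1], hz.2.2.2.1⟩, hz.2.2.1⟩

theorem NZ_error : ∃ C T0 : ℝ, 0 < C ∧ 10 ≤ T0 ∧ ∀ T : ℝ, T0 ≤ T →
    |(NZ T : ℝ) - T * Real.log T / (2 * Real.pi)| ≤ C * T := by
  obtain ⟨C, T0, hC, hT0, h⟩ := H370.nn_asymp H370.good_zeta
  have hpi := Real.pi_gt_three
  set C' : ℝ := C + 1 + NZ (2 * T0) + Real.log (2 * T0) with hC'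
  have hlog0 : 0 ≤ Real.log (2 * T0) := Real.log_nonneg (by linarith)
  have hC'0 : C + 1 ≤ C' := by
    rw [hC']
    have : (0 : ℝ) ≤ NZ (2 * T0) := Nat.cast_nonneg _
    linarith
  refine ⟨C', T0, by linarith, hT0, ?_⟩
  have key : ∀ n : ℕ, ∀ T : ℝ, T0 ≤ T → T ≤ 2 ^ n * (2 * T0) →
      |(NZ T : ℝ) - T * Real.log T / (2 * Real.pi)| ≤ C' * T := by
    intro n
    induction n with
    | zero =>
      intro T h1 h2
      rw [pow_zero, one_mul] at h2
      have h3 : (NZ T : ℝ) ≤ NZ (2 * T0) := by exact_mod_cast SG.NZ_mono h2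
      have h4 : 0 ≤ Real.log T := Real.log_nonneg (by linarith)
      have h5 : Real.log T ≤ Real.log (2 * T0) := Real.log_le_log (by linarith) h2
      have h6 : T * Real.log T / (2 * Real.pi) ≤ Real.log (2 * T0) * T := by
        rw [div_le_iff₀ (by positivity)]
        have : T * Real.log T ≤ T * Real.log (2 * T0) := mul_le_mul_of_nonneg_left h5 (by linarith)
        have h7 : 0 ≤ T * Real.log (2 * T0) := mul_nonneg (by linarith) hlog0
        nlinarith
      have h7 : 0 ≤ T * Real.log T / (2 * Real.pi) := by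
        apply div_nonneg (mul_nonneg (by linarith) h4) (by positivity)
      have h8 : (0 : ℝ) ≤ NZ T := Nat.cast_nonneg _
      have h9 : (NZ (2 * T0) : ℝ) ≤ NZ (2 * T0) * T := by
        apply le_mul_of_one_le_right (Nat.cast_nonneg _)
        linarith
      have h10 : 0 ≤ (C + 1) * T := by
        apply mul_nonneg <;> linarith
      rw [abs_le]
      have h11 : C' * T = (C + 1) * T + NZ (2 * T0) * T + Real.log (2 * T0) * T := by
        rw [hC']; ring
      have h12 : (0 : ℝ) ≤ NZ (2 * T0) * T := mul_nonneg (Nat.cast_nonneg _) (by linarith)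
      have h13 : 0 ≤ Real.log (2 * T0) * T := mul_nonneg hlog0 (by linarith)
      constructor <;> linarith
    | succ n ih =>
      intro T h1 h2
      rcases le_or_gt (2 * T0) T with h3 | h3
      · have h4 : T0 ≤ T / 2 := by linarith
        have h5 : T / 2 ≤ 2 ^ n * (2 * T0) := by
          rw [pow_succ] at h2
          linarith
        have h6 := ih (T / 2) h4 h5
        have h7 := h (T / 2) h4 (T / 2) (2 * (T / 2)) le_rfl (by linarith) (by linarith) le_rfl
        obtain ⟨h8, h9⟩ := NZ_double (T / 2) (by linarith)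
        have h10 : (NZ (2 * (T / 2)) : ℝ) = NZ (T / 2) + H370.NN riemannZeta (T / 2) (2 * (T / 2)) := by
          exact_mod_cast le_antisymm h8 h9
        have e : 2 * (T / 2) = T := by ring
        rw [e] at h10 h7
        have hlog : Real.log (T / 2) = Real.log T - Real.log 2 :=
          Real.log_div (by linarith) (by norm_num)
        have e2 : (NZ T : ℝ) - T * Real.log T / (2 * Real.pi) =
            ((NZ (T / 2) : ℝ) - T / 2 * Real.log (T / 2) / (2 * Real.pi)) +
            ((H370.NN riemannZeta (T / 2) T : ℝ) - T / 2 * Real.log (T / 2) / (2 * Real.pi)) -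
            T * Real.log 2 / (2 * Real.pi) := by
          rw [h10, hlog]
          ring
        have h11 : |T * Real.log 2 / (2 * Real.pi)| ≤ T / 2 := by
          have hl2 : 0 < Real.log 2 := Real.log_pos (by norm_num)
          have hl2' : Real.log 2 < 1 := by
            have := Real.log_two_lt_d9
            linarith
          have hT0 : 0 < T := by linarith
          rw [abs_of_nonneg (by positivity), div_le_iff₀ (by positivity)]
          nlinarith
        rw [e2]
        have h12 := abs_sub (((NZ (T / 2) : ℝ) - T / 2 * Real.log (T / 2) / (2 * Real.pi)) +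
            ((H370.NN riemannZeta (T / 2) T : ℝ) - T / 2 * Real.log (T / 2) / (2 * Real.pi)))
            (T * Real.log 2 / (2 * Real.pi))
        have h13 := abs_add_le ((NZ (T / 2) : ℝ) - T / 2 * Real.log (T / 2) / (2 * Real.pi))
            ((H370.NN riemannZeta (T / 2) T : ℝ) - T / 2 * Real.log (T / 2) / (2 * Real.pi))
        have h14 : C * (T / 2) + T / 2 ≤ C' * (T / 2) := by
          have : (0 : ℝ) ≤ T / 2 := by linarith
          nlinarith
        linarith
      · apply ih T h1
        have h4 : (1 : ℝ) ≤ 2 ^ n := one_le_pow₀ (by norm_num)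
        nlinarith
  intro T hT
  obtain ⟨n, hn⟩ := pow_unbounded_of_one_lt T (by norm_num : (1 : ℝ) < 2)
  apply key n T hT
  nlinarith

theorem NZ_tendsto :
    Tendsto (fun T : ℝ => (NZ T : ℝ) / (T / (2 * Real.pi) * Real.log T)) atTop (𝓝 1) := by
  obtain ⟨C, T0, hC, hT0, h⟩ := NZ_error
  have h1 : Tendsto (fun T : ℝ => C * (2 * Real.pi) / Real.log T) atTop (𝓝 0) :=
    Tendsto.div_atTop tendsto_const_nhds Real.tendsto_log_atTop
  rw [← tendsto_sub_nhds_zero_iff]
  apply squeeze_zero_norm' _ h1
  filter_upwards [eventually_ge_atTop T0] with T hT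
  have h2 := h T hT
  have hT1 : 0 < T := by linarith
  have hl : 0 < Real.log T := Real.log_pos (by linarith)
  have hpi := Real.pi_pos
  have hM : 0 < T / (2 * Real.pi) * Real.log T := by positivity
  have e : (NZ T : ℝ) / (T / (2 * Real.pi) * Real.log T) - 1 =
      ((NZ T : ℝ) - T * Real.log T / (2 * Real.pi)) / (T / (2 * Real.pi) * Real.log T) := by
    field_simp
  rw [e, Real.norm_eq_abs, abs_div, abs_of_pos hM, div_le_iff₀ hM]
  refine h2.trans (le_of_eq ?_)
  field_simp

/-- the zeros of zeta -/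
noncomputable def zetaPD : PD where
  x := ord
  N := NZ
  hx := fun _ hn t => SG.ord_le_iff hn t
  hpos := fun _ hn => SG.ord_pos hn
  asymp := NZ_tendsto

end Pool.Agent.H19.HL
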